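import Pool.Agent.H367.OS.GCut
import Pool.Agent.H367.OS.FldP

/-!
# Semisimplicity of Frobenius for surfaces and single pieces of one sequence of cubics

A relation `r` of size `m` is one of the equations `x_i x_j = x_l`, `x_i + x_j = x_l`, `x_i = 1` with
`i, j, l < m`; the relations are numbered, the number of `r` is `ν(r)` (`relNum`). Let `G_m` be the
following polynomial with integral coefficients (`univG ℤ m`). There are variables `x_i` and `z_ij` for
`i, j < m`, a variable `c_r` for every relation `r`, and variables `y_{r,l}` for all relations `r` and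
`l < (m + 1) 2 ^ ν(r)`. The equations (`eqnG`) are

  `z_ij - x_i x_j`,  `c_r ^ 2 - c_r`,  `c_r ρ_r`,  `(1 - c_r) y_{r,l}`,

where `ρ_r` is the linear polynomial `z_ij - x_l`, `x_i + x_j - x_l` or `x_i - 1` of the relation.
`G_m` is the sum of the equations multiplied by further variables `t_e`, one for each equation. It has
degree three. Let `C_m` be the affine cubic hypersurface `G_m = 1` (`cubG R m` over the ring `R`); it is
smooth over the integers.

Let `p` and `ℓ` be different prime numbers and `E` an algebraic closure of `ℚ_ℓ`. A module over the
polynomial ring `E[F]` is a vector space over `E` with an endomorphism `F`. For a variety `X` over a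
finite field `K` of characteristic `p` let `H K X` be `H^2(X̄, E)` with the Frobenius endomorphism of
`X` over `K`. It is a semisimple module if and only if Frobenius acts semisimply on `H^2(X̄, ℚ_ℓ)`; so
`Semi H K X` is question Q1 for the surface `X` and `ℓ`.

For a separated scheme `X` of finite type over `𝔽_p` let `D.G w j X = Gr^W_w H^j_c(X̄, E)` be the part
of weight `w` of the cohomology with compact supports, with Frobenius; for smooth projective `Y` it is
`H^j(Ȳ)` if `j = w`, and zero otherwise. The following facts are known (hypotheses `Describes`,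
`CutByAffine`).

* `restrict`: a surface `X` over `K` is a smooth projective scheme `Y` over `𝔽_p`, its cohomology over
  `𝔽_p` is the induced module, and an automorphism is semisimple if and only if its powers are.
* `sections`: let `Y` be smooth and projective over `𝔽_p`. By the Lefschetz theorem `H^2(Ȳ)` is a submodule of
  `H^2(S̄)` (up to a sum of modules which become trivial after a twist and a finite extension), where
  the components of `S` are smooth surfaces which are intersections of hyperplane sections of the
  components of `Y`, and geometrically irreducible over their fields of constants.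
* `CutByAffine`: let `S` be a surface, `Z` the support of an ample divisor, and `U = S - Z`. The
  intersection form is not degenerate on the span `A` of the classes of the components of `Z̄` (Hodge
  index theorem). So `H^2(S̄)(1)` is the direct sum of `A`, on which a power of Frobenius is the identity,
  and of the kernel of `H^2(S̄)(1) → H^2(Z̄)(1)`, which is the part `Gr^W_2 H^2_c(Ū)(1)`; the scheme `U` is
  affine. So `H^2(S̄)` is semisimple if `Gr^W_2 H^2_c(Ū)` is.

**Theorem.** Let `E_m` be the number of the equations, and for `N ∈ ℕ` let `e = (m + 1) N + E_m - 1`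
(`esh m N`).

(1) Question Q1 has a positive answer for all surfaces over all finite fields of characteristic `p` (for
`ℓ`) if and only if for infinitely many `m` Frobenius acts semisimply on the single parts
`Gr^W_{2+2e} H^{3+2e}_c(C_m)`, for all `N`.

(2) For every surface `X` over a finite field of characteristic `p` and all large `m` there is an `e'`
such that Frobenius acts semisimply on `H^2(X̄)` if it acts semisimply on the single part
`Gr^W_{2+2e'} H^{3+2e'}_c(C_m)`. For every affine scheme `Spec B` of finite type over `𝔽_p` and all
large `m` there is an `N` such that it acts semisimply on `Gr^W_w H^j_c(Spec B)` if and only if it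
does on `Gr^W_{w+2e} H^{j+2e+1}_c(C_m)`, for `0 ≤ w ≤ 2 m + 1` and all `j`.

(3) `G_m` has integral coefficients and degree at most three, and `C_m` is smooth over all rings.

The hypotheses on the category and on the pieces are standard (`IsGeo`): exact sequences, affine
bundles, the cohomology of affine spaces, the weights of `H^j_c(X)` are between `0` and `2 dim X`,
`Gr^W_w H^j_c(X)` is a subquotient of `H^w(Y)` for some smooth projective `Y` (weight spectral
sequence), and every smooth projective scheme has an affine bundle whose total space is affine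
(Jouanolou). The category need not be semisimple.

Idea of the proof. The projection of `C_m` to the affine space with the coordinates `x, z, c, y` is an
affine bundle over the complement of the zero set `W_m` of the equations. The scheme `W_m` is the
disjoint union, over all sets `s` of relations (`c_r = 1` for `r ∈ s` and `c_r = 0` for the others), of
the products `X_s × 𝔸 ^ ((m + 1) N(s))`, where `X_s` is the affine scheme defined by the relations in
`s` and `N(s) = ∑_{r ∈ s} 2 ^ ν(r)`. The numbers `N(s)` are different, and the weights of the
cohomology of `X_s` are between `0` and `2 m`. So the part of weight `w + 2 (m + 1) N(s)`,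
`0 ≤ w ≤ 2 m + 1`, of the cohomology of `W_m` is the twist of the part of weight `w` of the cohomology of
`X_s`, and it is different from the weight of the cohomology of the affine space. Every affine scheme of
finite type over a prime field is an `X_s`, for all large `m`. The pieces of the cohomology of an
arbitrary scheme are direct factors of those of a disjoint union of affine schemes.

The universal system of relations is the one of helper854 (`Pool.Agent.H854.SQ`).
-/

set_option autoImplicit false

open CategoryTheory CategoryTheory.Limits AlgebraicGeometry Pool.Agent.Y116.UV Pool.Agent.Z125.UN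
  Pool.Agent.Q193.LT Pool.Agent.H854.SQ Pool.Agent.H367.OS Polynomial

namespace Pool.Agent.Results.MP_1fe969_ag.PiecesOfOneSequence

/-- The geometrically irreducible smooth projective surfaces `X` over the field `K`. -/
def Surface (K : Type) [Field K] (X : Sch K) : Prop :=
  SmoothProj X ∧ GeometricallyIrreducible X.hom ∧ topologicalKrullDim X.left = 2

/-- Frobenius acts semisimply on `H^2(X̄)`. -/
def Semi {E : Type} [Field E] (H : ∀ (K : Type) [Field K], Sch K → ModuleCat.{0} E[X])
    (K : Type) [Field K] (X : Sch K) : Prop :=
  IsSemisimpleModule E[X] (H K X)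

/-- The relation of the surfaces over finite fields of characteristic `p` with the smooth projective
schemes over `𝔽_p`. -/
structure Describes {E : Type} [Field E] (p : ℕ) [Fact p.Prime]
    (D : Pieces (ZMod p) (ModuleCat.{0} E[X]))
    (H : ∀ (K : Type) [Field K], Sch K → ModuleCat.{0} E[X]) : Prop where
  restrict : ∀ (K : Type) [Field K] [Finite K] [CharP K p] (X : Sch K), Surface K X →
    ∃ Y : Sch (ZMod p), SmoothProj Y ∧ (IsSemisimpleModule E[X] (D.G 2 2 Y) → Semi H K X)
  sections : AllFp p Surface (fun K _ _ _ X => Semi H K X) →
    ∀ Y : Sch (ZMod p), SmoothProj Y → IsSemisimpleModule E[X] (D.G 2 2 Y)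

/-- **Semisimplicity of Frobenius for surfaces and single pieces of one sequence of cubic hypersurfaces
over the integers.** See the explanations above. -/
theorem result {p ℓ : ℕ} [Fact p.Prime] [Fact ℓ.Prime] (_ : ℓ ≠ p)
    {D : Pieces (ZMod p) (ModuleCat.{0} (AlgebraicClosure ℚ_[ℓ])[X])} (h : IsGeo D)
    (cut : CutByAffine D (fun N => IsSemisimpleModule (AlgebraicClosure ℚ_[ℓ])[X] N) 2)
    {H : ∀ (K : Type) [Field K], Sch K → ModuleCat.{0} (AlgebraicClosure ℚ_[ℓ])[X]}
    (describes : Describes p D H) :
    (AllFp p Surface (fun K _ _ _ X => Semi H K X) ↔ ∃ᶠ m in Filter.atTop, ∀ N : ℕ,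
      IsSemisimpleModule (AlgebraicClosure ℚ_[ℓ])[X]
        (D.G (2 + 2 * esh m N) (2 + 2 * esh m N + 1) (cubG (ZMod p) m))) ∧
    (∀ (K : Type) [Field K] [Finite K] [CharP K p] (X : Sch K), Surface K X →
      ∀ᶠ m in Filter.atTop, ∃ e : ℕ,
        IsSemisimpleModule (AlgebraicClosure ℚ_[ℓ])[X]
          (D.G (2 + 2 * e) (2 + 2 * e + 1) (cubG (ZMod p) m)) → Semi H K X) ∧
    (∀ (B : Type) [CommRing B] [Algebra (ZMod p) B] [Algebra.FiniteType (ZMod p) B],
      ∀ᶠ m : ℕ in Filter.atTop, ∃ N : ℕ, ∀ w j : ℤ, 0 ≤ w → w ≤ 2 * m + 1 →
        (IsSemisimpleModule (AlgebraicClosure ℚ_[ℓ])[X]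
            (D.G (w + 2 * esh m N) (j + 2 * esh m N + 1) (cubG (ZMod p) m)) ↔
          IsSemisimpleModule (AlgebraicClosure ℚ_[ℓ])[X] (D.G w j (aff (ZMod p) B)))) ∧
    ∀ m : ℕ, (univG ℤ m).totalDegree ≤ 3 ∧
      ∀ (R : Type) [CommRing R], MvPolynomial.map (Int.castRingHom R) (univG ℤ m) = univG R m ∧
        Smooth (cubG R m).hom := by
  have h0 : SemiObj = fun N : ModuleCat.{0} (AlgebraicClosure ℚ_[ℓ])[X] =>
      IsSemisimpleModule (AlgebraicClosure ℚ_[ℓ])[X] N := by
    funext N
    exact propext (semiObj_iff N)
  rw [← h0] at cut
  have h1 := (semi_cut (isPrimeField_zmod p) h (w := 2) cut).out 1 0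
  have hd := decides_twists (isPrimeField_zmod p) h
    (semiObj_closed (A := ModuleCat.{0} (AlgebraicClosure ℚ_[ℓ])[X]))
  simp only [semiObj_iff, Nat.cast_ofNat] at h1
  refine ⟨Iff.trans ⟨describes.sections, ?_⟩ h1, ?_, ?_, cubG_facts⟩
  · intro g K _ _ _ X hX
    obtain ⟨Y, hY, h3⟩ := describes.restrict K X hX
    exact h3 (g Y hY)
  · intro K _ _ _ X hX
    obtain ⟨Y, hY, h3⟩ := describes.restrict K X hX
    obtain ⟨m₀, hm⟩ := hd.proj Y hY 2
    filter_upwards [Filter.eventually_ge_atTop m₀] with m hm1
    obtain ⟨e, he⟩ := hm m hm1
    refine ⟨e, fun h4 => h3 ?_⟩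
    have h5 := he 2 le_rfl 0
    rw [h.pieces.semi_twist, h.pieces.semi_twist, semiObj_iff, semiObj_iff] at h5
    exact h5.mp h4
  · intro B _ _ _
    obtain ⟨m₀, hm⟩ := hd.exact B
    filter_upwards [Filter.eventually_ge_atTop m₀] with m hm1
    obtain ⟨N, hN⟩ := hm m hm1
    refine ⟨N, fun w j h0 h2 => ?_⟩
    have h5 := hN w j 0 h0 h2
    rwa [h.pieces.semi_twist, h.pieces.semi_twist, semiObj_iff, semiObj_iff] at h5

end Pool.Agent.Results.MP_1fe969_ag.PiecesOfOneSequence
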