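import Pool.Agent.H856.SM.Fam
import Pool.Agent.H856.SO.Exi

/-!
# Simple Frobenius eigenvalues on the cohomology of the surfaces `z ^ p - z = f (x, y)`

Let `k` be a finite field with `q = p ^ M` elements and let `f` be a polynomial of degree `d` in two
variables over `k`; `p` does not divide `d` and the form `f_d` of the terms of degree `d` has no multiple
factors. Let `U` be the affine surface `z ^ p - z = f (x, y)`. The group `Z / p` acts on `U`, and the
cohomology group `H_c ^ 2 (U)` is the direct sum of its parts `H_c ^ 2 (A ^ 2, L_ψ (f))`, where `ψ` runs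
through the nontrivial additive characters of the prime field. By Deligne the part of `ψ` has the
dimension `(d - 1) ^ 2`, and the eigenvalues of the Frobenius of `k` on it have absolute value `q`; they
are the `γ` in the spectrum `Γ` of the exponential sums of `ψ` (`IsSpectrum`). If `X` is a smooth
projective model of `U`, then `H ^ 2 (X)` is the direct sum of `H_c ^ 2 (U)` and of the classes of the
curves in the boundary. So Frobenius acts semisimply on `H ^ 2 (X)` if no `Γ` contains an element twice;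
then this is also true over all finite extensions of `k`, and over all subfields of `k` over which `X`
is defined. In general the Jordan blocks of Frobenius are not larger than the multiplicities of
the elements of `Γ`.

The theorem is about all `f` such that `d` divides `p - 1`, `2 d + 3 < p` and `f_d` contains `x ^ d` and
`y ^ d`, has no multiple factors and is ordinary: for `2 ≤ w < d` the Hasse-Witt matrix
of the part of the curve `t ^ d = f_d (x, 1)` on which `μ_d` acts by the `w`-th power of the tautological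
character is invertible (`Nondegenerate`). This is an open condition on `f_d`; there is no condition for
the other coefficients of `f`.

* First part. The multiplicity of every element of `Γ` of absolute value `q` is at most the maximum of
  the multiplicities of the nonzero roots of the characteristic polynomials, for `2 ≤ w ≤ d`, of the
  matrices of the Frobenius of `k` (the norms of the Hasse-Witt matrices). So the eigenvalues of
  Frobenius on `H_c ^ 2 (A ^ 2, L_ψ (f))` are pairwise distinct if the eigenvalues of these matrices of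
  the sizes `1, ..., d - 1` are distinct; this depends only on the form `f_d`. And the multiplicities,
  and the Jordan blocks of Frobenius on `H ^ 2 (X)`, are always at most `d - 1`.
* Second part. If `M` is divisible by `p - 1` and if `a` generates `k ^ * / (k ^ *) ^ d`, then for all
  `f = x ^ d - a y ^ d + (terms of degree less than d)` every element of `Γ` of absolute value `q` has the
  multiplicity one. So Frobenius is semisimple on `H ^ 2 (X)` for all these surfaces. (Such `a`
  exist for every such field `k`.)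
* Third part. The relation between the exponential sums and the number of points of `U`.

Nothing is assumed about the weights. The proof. By the theory of Dwork (we use the theory that is in the
files of `helper425`) the `L`-function `P` of the exponential sums is congruent to characteristic
polynomials of matrices of size `(d - 1) ^ 2` over ramified extensions of the Witt vectors. After the
scaling which makes the roots of slope `w / d` to units, we compute `P` modulo the maximal ideal, for
`2 ≤ w ≤ d`: it is a power of `T` times the characteristic polynomial of the norm of the Hasse-Witt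
matrix of level `w`. Now let `H` be the minimal polynomial over `ℚ (ζ_p)` of an element `γ` of `Γ` with
`|γ| = q`, and suppose that the power `H ^ (μ + 1)` divides `P`. If the multiplicities are at most `μ`,
then `H` has no roots of slope at most one. But `|γ| = q` implies that the constant term `h` of `H`
satisfies `h \bar h = q ^ (2 deg H)`, and so the slope of `h` is `deg H`. This is a contradiction.
-/

set_option autoImplicit false

open Polynomial

namespace Pool.Agent.Results.MP_1fe969_ag.SimpleEigenvalues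

/-- the number of points over `L` of the affine surface `z ^ p - z = f (x, y)` -/
noncomputable def points (p : ℕ) {k : Type} [Field k] (f : MvPolynomial (Fin 2) k) (L : Type)
    [Field L] [Algebra k L] : ℕ :=
  Nat.card {P : (Fin 2 → L) × L // P.2 ^ p - P.2 = MvPolynomial.aeval P.1 f}

/-- the sum of `ψ (Tr f (x, y))` over all `x`, `y` in `L` -/
noncomputable def expSum {p : ℕ} (ψ : AddChar (ZMod p) ℂ) {k : Type} [Field k]
    (f : MvPolynomial (Fin 2) k) (L : Type) [Field L] [Fintype L] [Algebra k L]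
    [Algebra (ZMod p) L] : ℂ :=
  ∑ x : Fin 2 → L, ψ (Algebra.trace (ZMod p) L (MvPolynomial.aeval x f))

/-- `Γ` is the multiset of the eigenvalues of Frobenius on `H_c ^ 2 (A ^ 2, L_ψ (f))` -/
def IsSpectrum {p : ℕ} (ψ : AddChar (ZMod p) ℂ) {k : Type} [Field k]
    (f : MvPolynomial (Fin 2) k) (Γ : Multiset ℂ) : Prop :=
  ∀ (L : Type) [Field L] [Fintype L] [Algebra k L] [Algebra (ZMod p) L],
    expSum ψ f L = (Γ.map fun γ => γ ^ Module.finrank k L).sum

open Classical in
/-- the multiplicity of `γ` in `Γ` -/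
noncomputable def mult (γ : ℂ) (Γ : Multiset ℂ) : ℕ := Γ.count γ

/-- `f_d (X, 1)`, where `f_d` is the part of `f` of degree `d` -/
noncomputable def leading (d : ℕ) {k : Type} [Field k] (f : MvPolynomial (Fin 2) k) : k[X] :=
  ∑ i ∈ Finset.range (d + 1),
    C (MvPolynomial.coeff (Finsupp.single 0 i + Finsupp.single 1 (d - i)) f) * X ^ i

/-- the Hasse-Witt matrix: entries `(i, j)`, `1 ≤ i, j < w`, the coefficient of `X ^ (p i - j)`
in `g ^ ((p - 1) w / d)` -/
noncomputable def hasseWitt (p d : ℕ) {k : Type} [Field k] (g : k[X]) (w : ℕ) :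
    Matrix (Fin (w - 1)) (Fin (w - 1)) k :=
  Matrix.of fun i j => (g ^ ((p - 1) * w / d)).coeff (p * (i + 1) - (j + 1))

/-- the norm `A ^ (p ^ (M - 1)) ⋯ A ^ (p) A`, where `A ^ (p ^ t)` has the entries `a_ij ^ (p ^ t)`:
the matrix of the `M`-th power of the `p`-linear map with the matrix `A` -/
noncomputable def norm (p : ℕ) {k : Type} [Field k] {n : ℕ} (A : Matrix (Fin n) (Fin n) k) :
    ℕ → Matrix (Fin n) (Fin n) k
  | 0 => 1
  | M + 1 => (A.map fun x => x ^ (p ^ M)) * norm p A M

/-- the assumptions about `f` -/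
structure Nondegenerate (p d : ℕ) {k : Type} [Field k] (f : MvPolynomial (Fin 2) k) : Prop where
  /-- the degree is at most `d` -/
  totalDegree_le : f.totalDegree ≤ d
  /-- `f_d` contains `x ^ d` -/
  coeff_top : (leading d f).coeff d ≠ 0
  /-- `f_d` contains `y ^ d` -/
  coeff_zero : (leading d f).coeff 0 ≠ 0
  /-- `f_d` has no multiple factors -/
  separable : (leading d f).Separable
  /-- the parts of the covering `t ^ d = f_d` are ordinary -/
  ordinary : ∀ w, 2 ≤ w → w < d → (hasseWitt p d (leading d f) w).det ≠ 0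

/-- for `2 ≤ w ≤ d` the nonzero roots (in the algebraic closure of `k`) of the characteristic
polynomial of the norm of the Hasse-Witt matrix have at most the multiplicity `μ` -/
def RootsAtMost (p d M : ℕ) {k : Type} [Field k] (g : k[X]) (μ : ℕ) : Prop :=
  ∀ w, 2 ≤ w → w ≤ d → ∀ x : AlgebraicClosure k, x ≠ 0 →
    ((norm p (hasseWitt p d g w) M).charpoly.map
      (algebraMap k (AlgebraicClosure k))).rootMultiplicity x ≤ μ

/-! ## Proofs -/

theorem leading_eq (d : ℕ) {k : Type} [Field k] (f : MvPolynomial (Fin 2) k) :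
    leading d f = Pool.Agent.H856.DW.lp d f := by
  ext a
  rw [leading, finsetSum_coeff]
  simp only [coeff_C_mul, coeff_X_pow, mul_ite, mul_one, mul_zero]
  rw [Finset.sum_ite_eq]
  by_cases h : a ≤ d
  · rw [if_pos (by rw [Finset.mem_range]; omega),
      Pool.Agent.H856.DW.coeff_lp d f a (d - a) (by omega)]
    congr 1
    ext i
    fin_cases i
    · simp [Pool.Agent.H856.DW.pt_zero]
    · simp [Pool.Agent.H856.DW.pt_one]
  · rw [if_neg (by rw [Finset.mem_range]; omega),
      Pool.Agent.H856.DW.coeff_lp_high d f a (by omega)]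

theorem hasseWitt_eq (p d : ℕ) {k : Type} [Field k] (g : k[X]) (w : ℕ) :
    hasseWitt p d g w = Pool.Agent.H856.DW.hwm p d g w := rfl

theorem norm_eq (p : ℕ) [Fact p.Prime] {k : Type} [Field k] [CharP k p] {n : ℕ}
    (A : Matrix (Fin n) (Fin n) k) (M : ℕ) :
    norm p A M = Pool.Agent.H425.prodn (fun t => A.map (iterateFrobenius k p t)) M := by
  induction M with
  | zero => rfl
  | succ M ih =>
    rw [norm, Pool.Agent.H425.prodn, ih]
    rfl

theorem norm_nw (p d : ℕ) [Fact p.Prime] {k : Type} [Field k] [CharP k p] (g : k[X]) (w m : ℕ) :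
    norm p (hasseWitt p d g w) (m + 1) = Pool.Agent.H856.SM.nw p d g w m := by
  rw [norm_eq, Pool.Agent.H856.SM.nw, hasseWitt_eq]

theorem exists_m {p M : ℕ} {k : Type} [Field k] [Finite k]
    (h : Nat.card k = p ^ M) : ∃ m, M = m + 1 := by
  refine ⟨M - 1, ?_⟩
  have h1 : 1 < Nat.card k := Finite.one_lt_card
  by_contra h2
  have h3 : M = 0 := by omega
  rw [h, h3, pow_zero] at h1
  omega

theorem exists_spectrum (p : ℕ) [Fact p.Prime] {k : Type} [Field k] [Finite k] [CharP k p]
    (d M : ℕ) (hcard : Nat.card k = p ^ M) (hd : 2 ≤ d) (hdp : d ∣ p - 1) (hpd : 2 * d + 3 < p)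
    (f : MvPolynomial (Fin 2) k) (h : Nondegenerate p d f) (ψ : AddChar (ZMod p) ℂ) (hψ : ψ ≠ 1) :
    ∃ Γ : Multiset ℂ, Γ.card = (d - 1) ^ 2 ∧ IsSpectrum ψ f Γ ∧
      ∀ μ : ℕ, RootsAtMost p d M (leading d f) μ → ∀ γ : ℂ, ‖γ‖ = Nat.card k → mult γ Γ ≤ μ := by
  classical
  obtain ⟨m, rfl⟩ := exists_m hcard
  have : @IsCyclotomicExtension {p} ℚ (CyclotomicField p ℚ) _ _ (CyclotomicField.algebra p ℚ) := by
    infer_instance
  obtain ⟨Γ, h1, h2, h3⟩ := @Pool.Agent.H856.SM.main_psi p _ (CyclotomicField p ℚ) _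
    (CyclotomicField.algebra p ℚ) this k _ _ _ d m hcard hd hdp hpd f h.totalDegree_le
    (by rw [← leading_eq]; exact h.coeff_top) (by rw [← leading_eq]; exact h.coeff_zero)
    (by rw [← leading_eq]; exact h.separable)
    (by rw [← leading_eq]; exact h.ordinary) ψ hψ _
  refine ⟨Γ, h1, h2, fun μ hμ γ hγ => ?_⟩
  have h4 := h3 μ (by
    intro w hw1 hw2 x hx
    rw [← leading_eq, ← norm_nw]
    exact hμ w hw1 hw2 x hx) γ hγ
  refine le_trans (le_of_eq ?_) h4
  rw [mult]

theorem IsSpectrum.mult_eq {k : Type} [Field k] [Finite k] {p : ℕ} [Fact p.Prime] [CharP k p]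
    {ψ : AddChar (ZMod p) ℂ} {f : MvPolynomial (Fin 2) k} {A B : Multiset ℂ}
    (hA : IsSpectrum ψ f A) (hB : IsSpectrum ψ f B) (x : ℂ) (hx : x ≠ 0) :
    mult x A = mult x B := by
  classical
  have h := Pool.Agent.H856.DW.count_eq_of_powerSums A B (fun s hs => ?_) x hx
  · rw [mult, mult]
    exact (by congr 1 : _ = A.count x).trans (h.trans (by congr 1))
  · have : NeZero s := ⟨by omega⟩
    have : Fintype (FiniteField.Extension k p s) := Fintype.ofFinite _
    have : CharP (FiniteField.Extension k p s) p :=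
      charP_of_injective_algebraMap (algebraMap k _).injective p
    let _ : Algebra (ZMod p) (FiniteField.Extension k p s) := ZMod.algebra _ p
    have h1 := hA (FiniteField.Extension k p s)
    have h2 := hB (FiniteField.Extension k p s)
    rw [FiniteField.finrank_extension] at h1 h2
    exact h1.symm.trans h2

theorem mult_le (p : ℕ) [Fact p.Prime] {k : Type} [Field k] [Finite k] [CharP k p]
    (d M : ℕ) (hcard : Nat.card k = p ^ M) (hd : 2 ≤ d) (hdp : d ∣ p - 1) (hpd : 2 * d + 3 < p)
    (f : MvPolynomial (Fin 2) k) (h : Nondegenerate p d f) (ψ : AddChar (ZMod p) ℂ) (hψ : ψ ≠ 1)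
    (Γ : Multiset ℂ) (hΓ : IsSpectrum ψ f Γ) (μ : ℕ) (hμ : RootsAtMost p d M (leading d f) μ)
    (γ : ℂ) (hγ : ‖γ‖ = Nat.card k) : mult γ Γ ≤ μ := by
  obtain ⟨Γ', h1, h2, h3⟩ := exists_spectrum p d M hcard hd hdp hpd f h ψ hψ
  have hγ0 : γ ≠ 0 := by
    rintro rfl
    rw [norm_zero] at hγ
    exact (Nat.card_pos (α := k)).ne' (by exact_mod_cast hγ.symm)
  rw [hΓ.mult_eq h2 γ hγ0]
  exact h3 μ hμ γ hγ

theorem rootsAtMost_size (p : ℕ) {k : Type} [Field k] (d M : ℕ) (g : k[X]) :
    RootsAtMost p d M g (d - 1) := by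
  intro w h1 h2 x hx
  have hmon := (Matrix.charpoly_monic (norm p (hasseWitt p d g w) M)).map
    (algebraMap k (AlgebraicClosure k))
  refine (rootMultiplicity_le_iff hmon.ne_zero x _).2 fun h3 => ?_
  have h4 := natDegree_le_of_dvd h3 hmon.ne_zero
  rw [natDegree_pow, natDegree_X_sub_C, (Matrix.charpoly_monic _).natDegree_map,
    Matrix.charpoly_natDegree_eq_dim, Fintype.card_fin] at h4
  omega

theorem family_nondegenerate {k : Type} [Field k] (p : ℕ) [hp : Fact p.Prime] [CharP k p]
    (d : ℕ) (hd : 2 ≤ d) (hdp : d ∣ p - 1) (f : MvPolynomial (Fin 2) k)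
    (hf : f.totalDegree ≤ d) (a : k) (ha : a ≠ 0) (hfa : leading d f = X ^ d - C a) :
    Nondegenerate p d f := by
  have hp1 := hp.out.one_lt
  have hdk : (d : k) ≠ 0 := by
    intro h
    have h1 := (CharP.cast_eq_zero_iff k p d).1 h
    have h2 := Nat.le_of_dvd (by omega) h1
    have h3 := Nat.le_of_dvd (by omega) hdp
    omega
  refine ⟨hf, ?_, ?_, ?_, ?_⟩
  · rw [hfa, coeff_sub, coeff_X_pow, if_pos rfl, coeff_C, if_neg (by omega), sub_zero]
    exact one_ne_zero
  · rw [hfa, coeff_sub, coeff_X_pow, if_neg (by omega), coeff_C, if_pos rfl, zero_sub]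
    exact neg_ne_zero.2 ha
  · rw [hfa]
    exact separable_X_pow_sub_C a hdk ha
  · intro w hw1 hw2
    rw [hfa]
    exact Pool.Agent.H856.SO.hwm_diag d hd hdp a ha w hw1 hw2

theorem family_roots {k : Type} [Field k] [Finite k] (p : ℕ) [hp : Fact p.Prime] [CharP k p]
    (d M : ℕ) (hcard : Nat.card k = p ^ M) (hd : 2 ≤ d) (hdp : d ∣ p - 1) (hpd : 2 * d + 3 < p)
    (hM : p - 1 ∣ M) (a : k) (ha : IsPrimitiveRoot (a ^ ((Nat.card k - 1) / d)) d) :
    RootsAtMost p d M (X ^ d - C a : k[X]) 1 := by
  obtain ⟨m, rfl⟩ := exists_m hcard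
  intro w h1 h2 x _
  rw [norm_nw]
  exact Pool.Agent.H856.SM.fam d m hcard hd hdp (by omega) hM a ha w h1 h2 x

/-- see the description at the top of the file -/
theorem result :
    (∀ (p : ℕ) [Fact p.Prime] (k : Type) [Field k] [Finite k] [CharP k p] (d M : ℕ),
      Nat.card k = p ^ M → 2 ≤ d → d ∣ p - 1 → 2 * d + 3 < p →
      ∀ f : MvPolynomial (Fin 2) k, Nondegenerate p d f →
      ∀ ψ : AddChar (ZMod p) ℂ, ψ ≠ 1 →
        (∃ Γ : Multiset ℂ, Γ.card = (d - 1) ^ 2 ∧ IsSpectrum ψ f Γ) ∧
        ∀ Γ : Multiset ℂ, IsSpectrum ψ f Γ → ∀ γ : ℂ, ‖γ‖ = Nat.card k →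
          mult γ Γ ≤ d - 1 ∧ ∀ μ : ℕ, RootsAtMost p d M (leading d f) μ → mult γ Γ ≤ μ) ∧
    (∀ (p : ℕ) [Fact p.Prime] (k : Type) [Field k] [Finite k] [CharP k p] (d M : ℕ),
      Nat.card k = p ^ M → 2 ≤ d → d ∣ p - 1 → 2 * d + 3 < p → p - 1 ∣ M →
      ∀ a : k, IsPrimitiveRoot (a ^ ((Nat.card k - 1) / d)) d →
      ∀ f : MvPolynomial (Fin 2) k, f.totalDegree ≤ d → leading d f = X ^ d - C a →
      ∀ ψ : AddChar (ZMod p) ℂ, ψ ≠ 1 →
        (∃ Γ : Multiset ℂ, Γ.card = (d - 1) ^ 2 ∧ IsSpectrum ψ f Γ) ∧
        ∀ Γ : Multiset ℂ, IsSpectrum ψ f Γ → ∀ γ : ℂ, ‖γ‖ = Nat.card k → mult γ Γ ≤ 1) ∧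
    (∀ (p : ℕ) [Fact p.Prime] (k : Type) [Field k] [CharP k p] (f : MvPolynomial (Fin 2) k)
      (L : Type) [Field L] [Fintype L] [Algebra k L] [Algebra (ZMod p) L],
      (points p f L : ℂ) = ∑ ψ : AddChar (ZMod p) ℂ, expSum ψ f L) := by
  refine ⟨fun p _ k _ _ _ d M hcard hd hdp hpd f hf ψ hψ => ⟨?_, ?_⟩, ?_, ?_⟩
  · obtain ⟨Γ, h1, h2, _⟩ := exists_spectrum p d M hcard hd hdp hpd f hf ψ hψ
    exact ⟨Γ, h1, h2⟩
  · intro Γ hΓ γ hγ
    exact ⟨mult_le p d M hcard hd hdp hpd f hf ψ hψ Γ hΓ _ (rootsAtMost_size p d M _) γ hγ,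
      fun μ hμ => mult_le p d M hcard hd hdp hpd f hf ψ hψ Γ hΓ μ hμ γ hγ⟩
  · intro p _ k _ _ _ d M hcard hd hdp hpd hM a ha f hf hfa ψ hψ
    have hp1 : 1 < p := (Fact.out : p.Prime).one_lt
    have ha0 : a ≠ 0 := by
      rintro rfl
      have h1 : (Nat.card k - 1) / d ≠ 0 := by
        obtain ⟨m, rfl⟩ := exists_m hcard
        have h2 : p ≤ Nat.card k := by
          rw [hcard]
          exact Nat.le_self_pow (Nat.succ_ne_zero m) p
        exact (Nat.div_pos (by omega) (by omega)).ne'
      rw [zero_pow h1] at ha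
      have h3 := ha.pow_eq_one
      rw [zero_pow (by omega)] at h3
      exact zero_ne_one h3
    have hnd := family_nondegenerate p d hd hdp f hf a ha0 hfa
    refine ⟨?_, ?_⟩
    · obtain ⟨Γ, h1, h2, _⟩ := exists_spectrum p d M hcard hd hdp hpd f hnd ψ hψ
      exact ⟨Γ, h1, h2⟩
    · intro Γ hΓ γ hγ
      refine mult_le p d M hcard hd hdp hpd f hnd ψ hψ Γ hΓ 1 ?_ γ hγ
      rw [hfa]
      exact family_roots p d M hcard hd hdp hpd hM a ha
  · intro p _ k _ _ f L _ _ _ _
    exact Pool.Agent.H856.SM.points_psi f L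

end Pool.Agent.Results.MP_1fe969_ag.SimpleEigenvalues
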